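import Pool.Agent.H95.CP.Defs
import Pool.Agent.H95.CP.Event

/-!
The critical Pool model (intensity `1`) does not grow linearly: for no constant `ξ > 0` does
`E_t / t` converge to `ξ` almost surely. The definitions are in `Pool.Agent.H95.CP.Defs`.
-/

open MeasureTheory ProbabilityTheory Filter Set
open scoped ENNReal NNReal Topology

namespace Pool.Agent.Results.MP_853d78_pr.NotLinear

open CriticalPool

variable {Ω : Type*} [MeasurableSpace Ω] {P : Measure Ω} [IsProbabilityMeasure P]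
  {X : ℕ → Ω → Plane} {S : ℕ → ℕ → Ω → ℝ} {V : ℕ → ℕ → Ω → Plane}

/-- The radius avoids each window `[a, κ a]` with probability bounded below. -/
lemma avoid (h : IsPoolData P 1 X S V) (t : ℝ≥0) {a : ℝ} (ha : a0 ≤ a) :
    P {ω | ENNReal.ofReal a ≤ poolRadius X S V ω t ∧
      poolRadius X S V ω t ≤ ENNReal.ofReal (kap * a)} ≤ ENNReal.ofReal (1 - c0 / 2) := by
  obtain ⟨B, hBm, hBP, hB⟩ := good_event h t ha
  have hsub : ∀ᵐ ω ∂P, ω ∈ {ω | ENNReal.ofReal a ≤ poolRadius X S V ω t ∧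
      poolRadius X S V ω t ≤ ENNReal.ofReal (kap * a)} → ω ∈ Bᶜ := by
    filter_upwards [h.regular] with ω hω h1 h2
    have h3 := hB ω h2 _ h1.1 h1.2
    have h4 := mass_balance hω t
    have h5 : area (poolRadius X S V ω t) + 1 ≤ area (poolRadius X S V ω t) := by
      refine le_trans ?_ h4
      gcongr
      exact h3
    have h6 : area (poolRadius X S V ω t) ≠ ∞ := by
      refine ne_top_of_le_ne_top ?_ (area_mono h1.2)
      unfold area
      exact ENNReal.mul_ne_top ENNReal.ofReal_ne_top (ENNReal.pow_ne_top ENNReal.ofReal_ne_top)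
    have h7 : area (poolRadius X S V ω t) < area (poolRadius X S V ω t) + 1 :=
      ENNReal.lt_add_right h6 one_ne_zero
    exact absurd h5 (not_le.mpr h7)
  have hle : P {ω | ENNReal.ofReal a ≤ poolRadius X S V ω t ∧
      poolRadius X S V ω t ≤ ENNReal.ofReal (kap * a)} ≤ P Bᶜ := measure_mono_ae hsub
  refine hle.trans ?_
  rw [prob_compl_eq_one_sub hBm]
  calc 1 - P B ≤ 1 - ENNReal.ofReal (c0 / 2) := tsub_le_tsub_left hBP 1
    _ = ENNReal.ofReal (1 - c0 / 2) := by
      rw [ENNReal.ofReal_sub _ (by have := c0_pos; positivity)]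
      simp

/-- No deterministic normalisation gives convergence to `1` with probability close to one. -/
lemma no_norm (h : IsPoolData P 1 X S V) (f : ℝ≥0 → ℝ) (hf : Tendsto f atTop atTop) :
    P {ω | Tendsto (fun t : ℝ≥0 => poolRadius X S V ω t / ENNReal.ofReal (f t)) atTop (𝓝 1)} ≤
      ENNReal.ofReal (1 - c0 / 2) := by
  have hk := one_lt_kap
  set k : ℝ := √kap with hkdef
  have hk0 : 0 < kap := by linarith
  have hkk : k * k = kap := Real.mul_self_sqrt hk0.le
  have hk1 : 1 < k := by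
    rw [hkdef, Real.lt_sqrt (by norm_num)]
    linarith
  have hkpos : 0 < k := by linarith
  set C : ℕ → Set Ω := fun n => {ω | ∀ t : ℝ≥0, (n : ℝ≥0) ≤ t →
    ENNReal.ofReal (f t / k) ≤ poolRadius X S V ω t ∧
      poolRadius X S V ω t ≤ ENNReal.ofReal (k * f t)} with hC
  have hmono : Monotone C := by
    intro a b hab ω hω t ht
    exact hω t (le_trans (by exact_mod_cast hab) ht)
  have hCP : ∀ n, P (C n) ≤ ENNReal.ofReal (1 - c0 / 2) := by
    intro n
    obtain ⟨t, ht1, ht2⟩ := ((tendsto_atTop.mp hf (k * a0)).and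
      (eventually_ge_atTop (n : ℝ≥0))).exists
    have ha : a0 ≤ f t / k := by
      rw [le_div_iff₀ hkpos]
      linarith
    refine (measure_mono ?_).trans (avoid h t ha)
    intro ω hω
    have h1 := hω t ht2
    have h2 : kap * (f t / k) = k * f t := by
      rw [← hkk]
      field_simp
    rw [mem_ofPred_eq, h2]
    exact h1
  have hsub : {ω | Tendsto (fun t : ℝ≥0 => poolRadius X S V ω t / ENNReal.ofReal (f t)) atTop
      (𝓝 1)} ⊆ ⋃ n, C n := by
    intro ω hω
    have h1 : ∀ᶠ x : ℝ≥0∞ in 𝓝 1, ENNReal.ofReal k⁻¹ ≤ x ∧ x ≤ ENNReal.ofReal k := by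
      refine Filter.Eventually.and ?_ ?_
      · refine (eventually_gt_nhds ?_).mono fun _ h => le_of_lt h
        rw [ENNReal.ofReal_lt_one]
        exact inv_lt_one_of_one_lt₀ hk1
      · refine (eventually_lt_nhds ?_).mono fun _ h => le_of_lt h
        rw [ENNReal.one_lt_ofReal]
        exact hk1
    have h2 := (hω.eventually h1).and (tendsto_atTop.mp hf 1)
    obtain ⟨T, hT⟩ := eventually_atTop.mp h2
    obtain ⟨n, hn⟩ := exists_nat_ge T
    refine mem_iUnion.mpr ⟨n, fun t ht => ?_⟩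
    obtain ⟨⟨h3, h4⟩, h5⟩ := hT t (hn.trans ht)
    have hft : 0 < f t := by linarith
    have hft' : ENNReal.ofReal (f t) ≠ 0 := by simpa using hft
    constructor
    · rw [ENNReal.le_div_iff_mul_le (Or.inl hft') (Or.inl ENNReal.ofReal_ne_top),
        ← ENNReal.ofReal_mul (by positivity)] at h3
      rwa [div_eq_inv_mul]
    · rw [ENNReal.div_le_iff hft' ENNReal.ofReal_ne_top, ← ENNReal.ofReal_mul hkpos.le] at h4
      exact h4
  refine (measure_mono hsub).trans ?_
  rw [hmono.measure_iUnion]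
  exact iSup_le hCP

theorem result.{u} :
    ∃ κ c a₀ : ℝ, 1 < κ ∧ 0 < c ∧ 0 < a₀ ∧
      ∀ (Ω : Type u) [MeasurableSpace Ω] (P : Measure Ω) [IsProbabilityMeasure P]
        (X : ℕ → Ω → Plane) (S : ℕ → ℕ → Ω → ℝ) (V : ℕ → ℕ → Ω → Plane),
        IsPoolData P 1 X S V →
          (∀ ξ : ℝ, 0 < ξ → ¬ ∀ᵐ ω ∂P,
            Tendsto (fun t : ℝ≥0 => poolRadius X S V ω t / (t : ℝ≥0∞)) atTop
              (𝓝 (ENNReal.ofReal ξ))) ∧
          (∀ f : ℝ≥0 → ℝ, Tendsto f atTop atTop →
            P {ω | Tendsto (fun t : ℝ≥0 => poolRadius X S V ω t / ENNReal.ofReal (f t)) atTop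
              (𝓝 1)} ≤ ENNReal.ofReal (1 - c)) ∧
          (∀ (t : ℝ≥0) (a : ℝ), a₀ ≤ a →
            P {ω | ENNReal.ofReal a ≤ poolRadius X S V ω t ∧
              poolRadius X S V ω t ≤ ENNReal.ofReal (κ * a)} ≤ ENNReal.ofReal (1 - c)) := by
  refine ⟨kap, c0 / 2, a0, one_lt_kap, half_pos c0_pos, a0_pos, ?_⟩
  intro Ω _ P _ X S V h
  refine ⟨fun ξ hξ hae => ?_, fun f hf => no_norm h f hf, fun t a ha => avoid h t ha⟩
  have hf : Tendsto (fun t : ℝ≥0 => ξ * (t : ℝ)) atTop atTop :=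
    (NNReal.tendsto_coe_atTop.mpr tendsto_id).const_mul_atTop hξ
  have h1 := no_norm h _ hf
  have h2 : P {ω | Tendsto (fun t : ℝ≥0 => poolRadius X S V ω t / ENNReal.ofReal (ξ * (t : ℝ)))
      atTop (𝓝 1)} = 1 := by
    have h3 : ∀ᵐ ω ∂P, ω ∈ {ω | Tendsto (fun t : ℝ≥0 => poolRadius X S V ω t /
        ENNReal.ofReal (ξ * (t : ℝ))) atTop (𝓝 1)} := by
      filter_upwards [hae] with ω hω
      have hξ' : ENNReal.ofReal ξ ≠ 0 := by simpa using hξ
      have h4 := ENNReal.Tendsto.div_const (b := ENNReal.ofReal ξ) hω (Or.inr hξ')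
      rw [ENNReal.div_self hξ' ENNReal.ofReal_ne_top] at h4
      refine h4.congr fun t => ?_
      rw [ENNReal.ofReal_mul hξ.le, ENNReal.ofReal_coe_nnreal, ENNReal.div_eq_inv_mul,
        ENNReal.div_eq_inv_mul, ENNReal.div_eq_inv_mul, ENNReal.mul_inv (Or.inl hξ')
          (Or.inl ENNReal.ofReal_ne_top), mul_assoc]
    have h6 : P {ω | Tendsto (fun t : ℝ≥0 => poolRadius X S V ω t /
        ENNReal.ofReal (ξ * (t : ℝ))) atTop (𝓝 1)} = P univ :=
      measure_congr (eventuallyEq_univ.mpr h3)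
    rw [h6, measure_univ]
  rw [h2] at h1
  have h5 : ENNReal.ofReal (1 - c0 / 2) < 1 := by
    rw [ENNReal.ofReal_lt_one]
    have := c0_pos
    linarith
  exact absurd h1 (not_le.mpr h5)

end Pool.Agent.Results.MP_853d78_pr.NotLinear
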